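import Pool.Agent.Helper120.Ea.Main
import Pool.Agent.Helper120.Ea.Model

open scoped ENNReal

namespace Pool.Agent.Results.MP_8f38de_lc.Disproof

open Pool.Agent.Helper120.EaModel

/-- For every constant `C` there are instances, with arbitrarily many edges, on which the expected
runtime of the (1+1) EA is larger than `C * m ^ 2 * ln m`. -/
theorem result (C : ℝ) (N : ℕ) :
    ∃ (V E : Type) (_ : Fintype V) (_ : Fintype E) (_ : DecidableEq E) (G : WGraph V E)
      (x0 : Finset E), (G.subgraph Finset.univ).Connected ∧ G.IsSpanningTree x0 ∧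
      2 ≤ Fintype.card E ∧ N ≤ Fintype.card E ∧
      ENNReal.ofReal (C * (Fintype.card E : ℝ) ^ 2 * Real.log (Fintype.card E)) <
        G.expectedRuntime x0 :=
  Pool.Agent.Helper120.Ea.main_growth C N

end Pool.Agent.Results.MP_8f38de_lc.Disproof
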